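import Pool.Agent.P.MP_3ccc78_al.Rank

set_option autoImplicit false

namespace Pool.Agent.P.MP_3ccc78_al

open Multiplicative

/-- The Heisenberg group over the field with two elements. -/
@[ext] structure Heis where
  p : ZMod 2
  q : ZMod 2
  r : ZMod 2
deriving DecidableEq

instance : Mul Heis := ⟨fun x y => ⟨x.p + y.p, x.q + y.q, x.r + y.r + x.p * y.q⟩⟩
instance : One Heis := ⟨⟨0, 0, 0⟩⟩
instance : Inv Heis := ⟨fun x => ⟨-x.p, -x.q, -x.r + x.p * x.q⟩⟩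

@[simp] theorem Heis.mul_p (x y : Heis) : (x * y).p = x.p + y.p := rfl
@[simp] theorem Heis.mul_q (x y : Heis) : (x * y).q = x.q + y.q := rfl
@[simp] theorem Heis.mul_r (x y : Heis) : (x * y).r = x.r + y.r + x.p * y.q := rfl
@[simp] theorem Heis.one_p : (1 : Heis).p = 0 := rfl
@[simp] theorem Heis.one_q : (1 : Heis).q = 0 := rfl
@[simp] theorem Heis.one_r : (1 : Heis).r = 0 := rfl
@[simp] theorem Heis.inv_p (x : Heis) : (x⁻¹).p = -x.p := rfl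
@[simp] theorem Heis.inv_q (x : Heis) : (x⁻¹).q = -x.q := rfl
@[simp] theorem Heis.inv_r (x : Heis) : (x⁻¹).r = -x.r + x.p * x.q := rfl

instance : Group Heis := Group.ofLeftAxioms
  (by intro x y z; ext <;> simp <;> ring)
  (by intro x; ext <;> simp)
  (by intro x; ext <;> simp <;> grind)

/-- First coordinate as a character. -/
def Heis.hp : Heis →* M2 := MonoidHom.mk' (fun x => ofAdd x.p) (fun _ _ => rfl)
/-- Second coordinate as a character. -/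
def Heis.hq : Heis →* M2 := MonoidHom.mk' (fun x => ofAdd x.q) (fun _ _ => rfl)

variable {Γ : Type} [Group Γ]

/-- The four generators of the intersection. -/
def kk (a b b' c : Γ) : Fin 4 → Γ :=
  ![a, c * a * c⁻¹, b * b' * b⁻¹ * b', c * (b' * (a * b * a⁻¹) * b'⁻¹ * (a * b * a⁻¹)) * c⁻¹]

/-- The subgroup they generate. -/
def KK (a b b' c : Γ) : Subgroup Γ := Subgroup.closure (Set.range (kk a b b' c))

theorem kk_mem (a b b' c : Γ) (i : Fin 4) : kk a b b' c i ∈ KK a b b' c :=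
  Subgroup.subset_closure ⟨i, rfl⟩

/-- `v` represents `g` for all characters of the subgroup. -/
def Rep (a b b' c : Γ) (g : KK a b b' c) (v : Fin 4 → ZMod 2) : Prop :=
  ∀ μ : KK a b b' c →* M2, toAdd (μ g) = ∑ i, v i * toAdd (μ ⟨_, kk_mem a b b' c i⟩)

theorem Rep.mul {a b b' c : Γ} {g g' : KK a b b' c} {v v' : Fin 4 → ZMod 2}
    (h : Rep a b b' c g v) (h' : Rep a b b' c g' v') : Rep a b b' c (g * g') (v + v') := by
  intro μ
  rw [map_mul, toAdd_mul, h μ, h' μ, ← Finset.sum_add_distrib]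
  simp [add_mul]

theorem exists_rep (a b b' c : Γ) (g : KK a b b' c) : ∃ v, Rep a b b' c g v := by
  obtain ⟨g, hg⟩ := g
  induction hg using Subgroup.closure_induction with
  | mem x hx =>
    obtain ⟨i, rfl⟩ := hx
    exact ⟨Pi.single i 1, fun μ => by simp [Pi.single_apply]⟩
  | one =>
    refine ⟨0, fun μ => ?_⟩
    have : μ ⟨1, one_mem _⟩ = 1 := map_one μ
    rw [this]
    simp
  | mul x y hx hy ihx ihy =>
    obtain ⟨v, hv⟩ := ihx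
    obtain ⟨v', hv'⟩ := ihy
    exact ⟨v + v', hv.mul hv'⟩
  | inv x hx ihx =>
    obtain ⟨v, hv⟩ := ihx
    refine ⟨-v, fun μ => ?_⟩
    have : (⟨x⁻¹, inv_mem hx⟩ : KK a b b' c) = (⟨x, hx⟩ : KK a b b' c)⁻¹ := rfl
    rw [this, map_inv, toAdd_inv, hv μ]
    simp

/-- The corner entry is a character of the subgroup when the second character kills `a`. -/
theorem corner (a b b' c : Γ) (θ : Γ →* Heis) (ha : (θ a).q = 0) :
    ∃ μ : KK a b b' c →* M2, ∀ g : KK a b b' c, toAdd (μ g) = (θ g).r := by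
  have hq : ∀ g ∈ KK a b b' c, (θ g).q = 0 := by
    intro g hg
    induction hg using Subgroup.closure_induction with
    | mem x hx =>
      obtain ⟨i, rfl⟩ := hx
      fin_cases i <;> simp [kk, ha] <;> grind
    | one => simp
    | mul x y _ _ ihx ihy => simp [ihx, ihy]
    | inv x _ ihx => simp [ihx]
  refine ⟨MonoidHom.mk' (fun g => ofAdd (θ g).r) ?_, fun g => rfl⟩
  intro g g'
  simp [hq g' g'.2, ← ofAdd_add]

theorem corner_vals (a b b' c : Γ) (θ : Γ →* Heis) (ha : (θ a).q = 0) :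
    (θ (kk a b b' c 0)).r = (θ a).r ∧
    (θ (kk a b b' c 1)).r = (θ a).r + (θ a).p * (θ c).q ∧
    (θ (kk a b b' c 2)).r = (θ b).p * (θ b').q + (θ b').p * (θ b).q + (θ b').p * (θ b').q ∧
    (θ (kk a b b' c 3)).r = (θ b').p * (θ b).q + (θ b).p * (θ b').q + (θ b).p * (θ b).q := by
  simp only [kk, Matrix.cons_val, map_mul, map_inv]
  generalize θ a = A at *
  generalize θ b = B
  generalize θ b' = B'
  generalize θ c = C
  obtain ⟨ap, aq, ar⟩ := A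
  obtain ⟨bp, bq, br⟩ := B
  obtain ⟨bp', bq', br'⟩ := B'
  obtain ⟨cp, cq, cr⟩ := C
  simp only at ha
  subst ha
  simp only [Heis.mul_p, Heis.mul_q, Heis.mul_r, Heis.inv_p, Heis.inv_q, Heis.inv_r, true_and]
  refine ⟨?_, ?_, ?_⟩ <;> grind

/-- Vectors of length four over the field with two elements. -/
abbrev V4 : Type := Fin 4 → ZMod 2

theorem z2_cases (z : ZMod 2) : z = 0 ∨ z = 1 := by revert z; decide

theorem v4_add_self (x : V4) : x + x = 0 := by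
  funext i
  have : ∀ z : ZMod 2, z + z = 0 := by decide
  exact this _

theorem v4_ne {x y : V4} (h : x + y ≠ 0) : x ≠ y := by
  rintro rfl
  exact h (v4_add_self x)

theorem sub2 (R : V4 → Prop) (hR : ∀ x y, R x → R y → R (x + y)) (f : V4 → ZMod 2)
    (hf : ∀ x y, f (x + y) = f x + f y) {s s' : V4} (hs : R s) (hs' : R s')
    (h1 : s ≠ 0) (h2 : s' ≠ 0) (h3 : s + s' ≠ 0) : ∃ x, R x ∧ x ≠ 0 ∧ f x = 0 := by
  rcases z2_cases (f s) with e1 | e1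
  · exact ⟨s, hs, h1, e1⟩
  · rcases z2_cases (f s') with e2 | e2
    · exact ⟨s', hs', h2, e2⟩
    · exact ⟨s + s', hR _ _ hs hs', h3, by rw [hf, e1, e2]; rfl⟩

theorem sub3 (R : V4 → Prop) (hR : ∀ x y, R x → R y → R (x + y)) (f : V4 → ZMod 2)
    (hf : ∀ x y, f (x + y) = f x + f y) {s s' s'' : V4} (hs : R s) (hs' : R s') (hs'' : R s'')
    (h1 : s ≠ 0) (h2 : s' ≠ 0) (h3 : s'' ≠ 0) (h12 : s + s' ≠ 0) (h13 : s + s'' ≠ 0)
    (h23 : s' + s'' ≠ 0) (h123 : s + s' + s'' ≠ 0) :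
    ∃ x y, R x ∧ R y ∧ x ≠ 0 ∧ y ≠ 0 ∧ x ≠ y ∧ f x = 0 ∧ f y = 0 := by
  have h11 : (1 : ZMod 2) + 1 = 0 := rfl
  rcases z2_cases (f s) with e1 | e1 <;> rcases z2_cases (f s') with e2 | e2 <;>
    rcases z2_cases (f s'') with e3 | e3
  · exact ⟨s, s', hs, hs', h1, h2, v4_ne h12, e1, e2⟩
  · exact ⟨s, s', hs, hs', h1, h2, v4_ne h12, e1, e2⟩
  · exact ⟨s, s'', hs, hs'', h1, h3, v4_ne h13, e1, e3⟩
  · exact ⟨s, s' + s'', hs, hR _ _ hs' hs'', h1, h23, v4_ne (by rwa [← add_assoc]), e1,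
      by rw [hf, e2, e3, h11]⟩
  · exact ⟨s', s'', hs', hs'', h2, h3, v4_ne h23, e2, e3⟩
  · exact ⟨s', s + s'', hs', hR _ _ hs hs'', h2, h13,
      v4_ne (by rwa [← add_assoc, add_comm s' s]), e2, by rw [hf, e1, e3, h11]⟩
  · exact ⟨s + s', s'', hR _ _ hs hs', hs'', h12, h3, v4_ne h123, by rw [hf, e1, e2, h11], e3⟩
  · refine ⟨s + s', s + s'', hR _ _ hs hs', hR _ _ hs hs'', h12, h13, ?_,
      by rw [hf, e1, e2, h11], by rw [hf, e1, e3, h11]⟩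
    intro h
    exact v4_ne h23 (add_left_cancel h)

theorem finite_check (v u : V4) (hv : v ≠ 0) (hu : u ≠ 0) (h0 : v 0 + v 1 = 0) (hu0 : u 0 = 0)
    (h1 : v 1 * u 3 = 0) (h2 : v 2 * u 2 + v 3 * (u 2 + u 1) = 0)
    (h3 : v 2 * (u 1 + u 2) + v 3 * u 1 = 0) :
    (v = ![1, 1, 0, 0] ∧ u 3 = 0) ∨ (u = ![0, 0, 0, 1] ∧ v 0 = 0) := by
  revert v u
  decide

theorem final (P Q : ℕ → V4 → Prop) (hPadd : ∀ j x y, P j x → P j y → P j (x + y))
    (hQadd : ∀ j x y, Q j x → Q j y → Q j (x + y))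
    (hP12 : ∀ x, P 1 x → P 2 x) (hP23 : ∀ x, P 2 x → P 3 x)
    (hQ21 : ∀ x, Q 2 x → Q 1 x) (hQ32 : ∀ x, Q 3 x → Q 2 x)
    (hlin : ∀ j v u, P j v → Q j u → (v 0 + v 1) * u 0 = 0)
    (hkill : ∀ j v u, P j v → Q j u → v 0 + v 1 = 0 → u 0 = 0 →
      v 1 * u 3 = 0 ∧ v 2 * u 2 + v 3 * (u 2 + u 1) = 0 ∧ v 2 * (u 1 + u 2) + v 3 * u 1 = 0)
    (hp1 : ∃ s, P 1 s ∧ s ≠ 0)
    (hp2 : ∃ s s', P 2 s ∧ P 2 s' ∧ s ≠ 0 ∧ s' ≠ 0 ∧ s + s' ≠ 0)
    (hp3 : ∃ s s' s'', P 3 s ∧ P 3 s' ∧ P 3 s'' ∧ s ≠ 0 ∧ s' ≠ 0 ∧ s'' ≠ 0 ∧ s + s' ≠ 0 ∧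
      s + s'' ≠ 0 ∧ s' + s'' ≠ 0 ∧ s + s' + s'' ≠ 0)
    (hq : ∃ s s' s'', Q 1 s ∧ Q 2 s' ∧ Q 3 s'' ∧ s ≠ 0 ∧ s' ≠ 0 ∧ s'' ≠ 0 ∧ s + s' ≠ 0 ∧
      s + s'' ≠ 0 ∧ s' + s'' ≠ 0 ∧ s + s' + s'' ≠ 0) : False := by
  obtain ⟨u1, u2, u3, q1, q2, q3, n1, n2, n3, n12, n13, n23, n123⟩ := hq
  have he : ∀ x y : V4, (x + y) 0 + (x + y) 1 = (x 0 + x 1) + (y 0 + y 1) := by
    intro x y; simp only [Pi.add_apply]; ring
  have step1 : ∀ j v u u', P j v → Q j u → Q j u' → v ≠ 0 → u ≠ 0 → u' ≠ 0 → u ≠ u' →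
      v 0 + v 1 = 0 → u 0 = 0 → u' 0 = 0 → v = ![1, 1, 0, 0] := by
    intro j v u u' hv hu hu' a1 a2 a3 a4 a5 a6 a7
    obtain ⟨b1, b2, b3⟩ := hkill j v u hv hu a5 a6
    obtain ⟨c1, c2, c3⟩ := hkill j v u' hv hu' a5 a7
    rcases finite_check v u a1 a2 a5 a6 b1 b2 b3 with h | h
    · exact h.1
    · rcases finite_check v u' a1 a3 a5 a7 c1 c2 c3 with h' | h'
      · exact h'.1
      · exact absurd (h.1.trans h'.1.symm) a4
  have step2 : ∀ j v v' u, P j ![1, 1, 0, 0] → P j v → P j v' → Q j u → v ≠ 0 → v' ≠ 0 → v ≠ v' →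
      u ≠ 0 → v 0 + v 1 = 0 → v' 0 + v' 1 = 0 → u 0 = 0 → False := by
    intro j v v' u h0 hv hv' hu a1 a2 a3 a4 a5 a6 a7
    have d0 : u 3 = 0 := by
      have := (hkill j _ u h0 hu (by decide) a7).1
      simpa using this
    obtain ⟨b1, b2, b3⟩ := hkill j v u hv hu a5 a7
    obtain ⟨c1, c2, c3⟩ := hkill j v' u hv' hu a6 a7
    rcases finite_check v u a1 a4 a5 a7 b1 b2 b3 with h | h
    · rcases finite_check v' u a2 a4 a6 a7 c1 c2 c3 with h' | h'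
      · exact a3 (h.1.trans h'.1.symm)
      · rw [h'.1] at d0; exact absurd d0 (by decide)
    · rw [h.1] at d0; exact absurd d0 (by decide)
  have last3 : P 3 ![1, 1, 0, 0] → u3 0 = 0 → False := by
    intro h0 hu
    obtain ⟨s, s', s'', p1, p2, p3, m1, m2, m3, m12, m13, m23, m123⟩ := hp3
    obtain ⟨x, y, hx, hy, x0, y0, hxy, ex, ey⟩ :=
      sub3 (P 3) (hPadd 3) (fun v => v 0 + v 1) he p1 p2 p3 m1 m2 m3 m12 m13 m23 m123
    exact step2 3 x y u3 h0 hx hy q3 x0 y0 hxy n3 ex ey hu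
  obtain ⟨s, ps, s0⟩ := hp1
  obtain ⟨t, t', pt, pt', t0, t0', tt⟩ := hp2
  rcases z2_cases (s 0 + s 1) with es | es
  · obtain ⟨x, y, hx, hy, x0, y0, hxy, ex, ey⟩ :=
      sub3 (Q 1) (hQadd 1) (fun v => v 0) (fun _ _ => rfl) q1 (hQ21 _ q2) (hQ21 _ (hQ32 _ q3))
        n1 n2 n3 n12 n13 n23 n123
    have hs := step1 1 s x y ps hx hy s0 x0 y0 hxy es ex ey
    rw [hs] at ps
    by_cases hE : ∃ v, P 2 v ∧ v 0 + v 1 = 1
    · obtain ⟨v, pv, ev⟩ := hE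
      have := hlin 2 v u3 pv (hQ32 _ q3)
      rw [ev, one_mul] at this
      exact last3 (hP23 _ (hP12 _ ps)) this
    · push Not at hE
      obtain ⟨z, hz, z0, ez⟩ := sub2 (Q 2) (hQadd 2) (fun v => v 0) (fun _ _ => rfl) q2
        (hQ32 _ q3) n2 n3 n23
      exact step2 2 t t' z (hP12 _ ps) pt pt' hz t0 t0' (v4_ne tt) z0
        ((z2_cases _).resolve_right (hE t pt)) ((z2_cases _).resolve_right (hE t' pt')) ez
  · have a2 := hlin 1 s u2 ps (hQ21 _ q2)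
    have a3 := hlin 1 s u3 ps (hQ21 _ (hQ32 _ q3))
    rw [es, one_mul] at a2 a3
    obtain ⟨z, hz, z0, ez⟩ := sub2 (P 2) (hPadd 2) (fun v => v 0 + v 1) he pt pt' t0 t0' tt
    have hs := step1 2 z u2 u3 hz q2 (hQ32 _ q3) z0 n2 n3 (v4_ne n23) ez a2 a3
    rw [hs] at hz
    exact last3 (hP23 _ hz) a3

end Pool.Agent.P.MP_3ccc78_al
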