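import Mathlib

set_option autoImplicit false

namespace Pool.Agent.P.MP_3ccc78_al

/-- The rank of a subgroup: the least number of elements generating it (`⊤` if it is not finitely
generated). For a subgroup of a free group this is the size of a free basis. -/
noncomputable def rk {G : Type} [Group G] (S : Subgroup G) : ℕ∞ :=
  ⨅ (T : Finset G) (_ : Subgroup.closure (T : Set G) = S), (T.card : ℕ∞)

/-- `H` is in echelon form with respect to the ordered free basis `X` of `G`: the rank of the
intersection of `H` with the subgroup generated by an initial segment of `X` grows by at most one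
at each step. -/
def InEchelonForm {G : Type} [Group G] {n : ℕ} (X : FreeGroupBasis (Fin n) G) (H : Subgroup G) :
    Prop :=
  ∀ i : Fin n, rk (H ⊓ Subgroup.closure (X '' {l | l ≤ i})) ≤
    rk (H ⊓ Subgroup.closure (X '' {l | l < i})) + 1

/-- `H` is an echelon subgroup of `G`: it is in echelon form with respect to some ordered finite
free basis of `G`. -/
def IsEchelon {G : Type} [Group G] (H : Subgroup G) : Prop :=
  ∃ (n : ℕ) (X : FreeGroupBasis (Fin n) G), InEchelonForm X H

end Pool.Agent.P.MP_3ccc78_al
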