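import Pool.Agent.P.MP_3ccc78_al.NotEch

set_option autoImplicit false

namespace Pool.Agent.P.MP_3ccc78_al

/-- The free group of rank three. -/
abbrev F3 : Type := FreeGroup (Fin 3)

/-- First generator. -/
def gx : F3 := FreeGroup.of 0
/-- Second generator. -/
def gy : F3 := FreeGroup.of 1
/-- Third generator. -/
def gz : F3 := FreeGroup.of 2

/-- The second generator of the echelon subgroup. -/
def gw : F3 := gy * (gx * gy * gx⁻¹) * gy⁻¹ * (gx * gy * gx⁻¹)

/-- The echelon subgroup. -/
def HH : Subgroup F3 := Subgroup.closure {gx * gx, gw, gz * gx}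

/-- The finitely generated subgroup. -/
def GG : Subgroup F3 := Subgroup.closure {gx * gx, gy, gx * gy * gx⁻¹, gz}

section Auto

variable {M : Type} [Group M]

/-- A permutation keeping the state and multiplying by a label. -/
def lab (B B' : M) : Equiv.Perm (Bool × M) where
  toFun p := (p.1, (if p.1 then B' else B) * p.2)
  invFun p := (p.1, (if p.1 then B' else B)⁻¹ * p.2)
  left_inv := by rintro ⟨s, m⟩; cases s <;> simp
  right_inv := by rintro ⟨s, m⟩; cases s <;> simp

/-- A permutation swapping the state. -/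
def swp (A : M) : Equiv.Perm (Bool × M) where
  toFun p := (!p.1, (if p.1 then 1 else A) * p.2)
  invFun p := (!p.1, (if p.1 then A⁻¹ else 1) * p.2)
  left_inv := by rintro ⟨s, m⟩; cases s <;> simp
  right_inv := by rintro ⟨s, m⟩; cases s <;> simp

/-- The action of the free group on two copies of `M`. -/
def rho (A B B' C C' : M) : F3 →* Equiv.Perm (Bool × M) :=
  FreeGroup.lift ![swp A, lab B B', lab C C']

variable (A B B' C C' : M)

theorem rho_x : rho A B B' C C' gx = swp A := by simp [rho, gx]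
theorem rho_y : rho A B B' C C' gy = lab B B' := by simp [rho, gy]
theorem rho_z : rho A B B' C C' gz = lab C C' := by simp [rho, gz]

theorem lab_f (m : M) : lab B B' (false, m) = (false, B * m) := rfl
theorem lab_t (m : M) : lab B B' (true, m) = (true, B' * m) := rfl
theorem lab_if (m : M) : (lab B B')⁻¹ (false, m) = (false, B⁻¹ * m) := rfl
theorem lab_it (m : M) : (lab B B')⁻¹ (true, m) = (true, B'⁻¹ * m) := rfl
theorem swp_f (m : M) : swp A (false, m) = (true, A * m) := rfl
theorem swp_t (m : M) : swp A (true, m) = (false, m) := by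
  change (false, 1 * m) = _; rw [one_mul]
theorem swp_if (m : M) : (swp A)⁻¹ (false, m) = (true, m) := by
  change (true, 1 * m) = _; rw [one_mul]
theorem swp_it (m : M) : (swp A)⁻¹ (true, m) = (false, A⁻¹ * m) := rfl

theorem rho_G (g : F3) (hg : g ∈ GG) :
    ∃ d : M, ∀ m, rho A B B' C C' g (false, m) = (false, d * m) := by
  induction hg using Subgroup.closure_induction with
  | mem x hx =>
    rcases hx with rfl | rfl | rfl | rfl
    · exact ⟨A, fun m => by
        simp only [map_mul, rho_x, Equiv.Perm.mul_apply, swp_f, swp_t]⟩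
    · exact ⟨B, fun m => by simp only [rho_y, lab_f]⟩
    · exact ⟨B', fun m => by
        simp only [map_mul, map_inv, rho_x, rho_y, Equiv.Perm.mul_apply, swp_if, lab_t, swp_t]⟩
    · exact ⟨C, fun m => by simp only [rho_z, lab_f]⟩
  | one => exact ⟨1, fun m => by simp⟩
  | mul x y _ _ ihx ihy =>
    obtain ⟨d, hd⟩ := ihx
    obtain ⟨d', hd'⟩ := ihy
    exact ⟨d * d', fun m => by rw [map_mul, Equiv.Perm.mul_apply, hd', hd, mul_assoc]⟩
  | inv x _ ihx =>
    obtain ⟨d, hd⟩ := ihx
    exact ⟨d⁻¹, fun m => by rw [map_inv, Equiv.Perm.inv_eq_iff_eq, hd]; simp⟩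

end Auto

/-- The generators of `GG` as elements of `GG`. -/
def ea : GG := ⟨gx * gx, Subgroup.subset_closure (by simp)⟩
/-- The generators of `GG` as elements of `GG`. -/
def eb : GG := ⟨gy, Subgroup.subset_closure (by simp)⟩
/-- The generators of `GG` as elements of `GG`. -/
def eb' : GG := ⟨gx * gy * gx⁻¹, Subgroup.subset_closure (by simp)⟩
/-- The generators of `GG` as elements of `GG`. -/
def ec : GG := ⟨gz, Subgroup.subset_closure (by simp)⟩

theorem hgen : Subgroup.closure {ea, eb, eb', ec} = ⊤ := by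
  rw [eq_top_iff]
  rintro ⟨g, hg⟩ -
  induction hg using Subgroup.closure_induction with
  | mem x hx =>
    apply Subgroup.subset_closure
    rcases hx with rfl | rfl | rfl | rfl
    · exact Or.inl rfl
    · exact Or.inr (Or.inl rfl)
    · exact Or.inr (Or.inr (Or.inl rfl))
    · exact Or.inr (Or.inr (Or.inr rfl))
  | one => exact one_mem _
  | mul x y hx hy ihx ihy => exact mul_mem ihx ihy
  | inv x hx ihx => exact inv_mem ihx

theorem exists_hom {M : Type} [Group M] (A B B' C C' : M) :
    ∃ f : GG →* M, f ea = A ∧ f eb = B ∧ f eb' = B' ∧ f ec = C ∧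
      ∀ g : GG, rho A B B' C C' g (false, 1) = (false, f g) := by
  refine ⟨MonoidHom.mk' (fun g : GG => (rho A B B' C C' g (false, 1)).2) ?_, ?_, ?_, ?_, ?_, ?_⟩
  · intro g g'
    obtain ⟨d, hd⟩ := rho_G A B B' C C' g g.2
    obtain ⟨d', hd'⟩ := rho_G A B B' C C' g' g'.2
    simp only [Subgroup.coe_mul, map_mul, Equiv.Perm.mul_apply, hd, hd', mul_one]
  · simp only [MonoidHom.mk'_apply, ea, map_mul, rho_x, Equiv.Perm.mul_apply, swp_f, swp_t, mul_one]
  · simp only [MonoidHom.mk'_apply, eb, rho_y, lab_f, mul_one]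
  · simp only [MonoidHom.mk'_apply, eb', map_mul, map_inv, rho_x, rho_y, Equiv.Perm.mul_apply,
      swp_if, lab_t, swp_t, mul_one]
  · simp only [MonoidHom.mk'_apply, ec, rho_z, lab_f, mul_one]
  · intro g
    obtain ⟨d, hd⟩ := rho_G A B B' C C' g g.2
    simp only [MonoidHom.mk'_apply, hd]

theorem inter_eq : (HH ⊓ GG).subgroupOf GG = KK ea eb eb' ec := by
  apply le_antisymm
  · intro g hg
    have hH : (g : F3) ∈ HH := (Subgroup.mem_subgroupOf.1 hg).1
    obtain ⟨f, fa, fb, fb', fc, hf⟩ := exists_hom ea eb eb' ec (ec⁻¹ * ea⁻¹)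
    have hid : f = MonoidHom.id GG := by
      apply MonoidHom.eq_of_eqOn_dense hgen
      rintro x (rfl | rfl | rfl | rfl)
      exacts [fa, fb, fb', fc]
    set T := KK ea eb eb' ec with hT
    let S : Bool × GG → Prop := fun p => (if p.1 then ec * p.2 else p.2) ∈ T
    have k0 : ea ∈ T := kk_mem ea eb eb' ec 0
    have k1 : ec * ea * ec⁻¹ ∈ T := kk_mem ea eb eb' ec 1
    have k2 : eb * eb' * eb⁻¹ * eb' ∈ T := kk_mem ea eb eb' ec 2
    have k3 : ec * (eb' * (ea * eb * ea⁻¹) * eb'⁻¹ * (ea * eb * ea⁻¹)) * ec⁻¹ ∈ T :=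
      kk_mem ea eb eb' ec 3
    have key : ∀ h ∈ HH, ∀ p, S (rho ea eb eb' ec (ec⁻¹ * ea⁻¹) h p) ↔ S p := by
      intro h hh
      induction hh using Subgroup.closure_induction with
      | mem x hx =>
        rintro ⟨s, m⟩
        rcases hx with rfl | rfl | rfl <;> cases s <;>
          simp only [gw, map_mul, map_inv, rho_x, rho_y, rho_z, Equiv.Perm.mul_apply, swp_f, swp_t,
            swp_if, swp_it, lab_f, lab_t, lab_if, lab_it, S, if_true, Bool.false_eq_true, if_false]
        · exact T.mul_mem_cancel_left k0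
        · rw [← T.mul_mem_cancel_left (y := ec * m) k1]
          congr! 1
          group
        · rw [← T.mul_mem_cancel_left (y := m) k2]
          congr! 1
          group
        · rw [← T.mul_mem_cancel_left (y := ec * m) k3]
          congr! 1
          group
        · congr! 1
          group
      | one => intro p; simp
      | mul x y _ _ ihx ihy => intro p; rw [map_mul, Equiv.Perm.mul_apply, ihx, ihy]
      | inv x _ ihx =>
        intro p
        rw [← ihx, ← Equiv.Perm.mul_apply, ← map_mul, mul_inv_cancel, map_one]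
        rfl
    have h1 := (key g hH (false, 1)).2 (one_mem T)
    rw [hf, hid] at h1
    exact h1
  · apply (Subgroup.closure_le _).2
    rintro _ ⟨i, rfl⟩
    have h0 : gx * gx ∈ HH := Subgroup.subset_closure (by simp)
    have h1 : gw ∈ HH := Subgroup.subset_closure (by simp)
    have h2 : gz * gx ∈ HH := Subgroup.subset_closure (by simp)
    refine Subgroup.mem_subgroupOf.2 ⟨?_, SetLike.coe_mem _⟩
    fin_cases i
    · exact h0
    · have := mul_mem (mul_mem h2 h0) (inv_mem h2)
      convert this using 1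
      simp [kk, ea, ec]
      group
    · exact h1
    · have := mul_mem (mul_mem h2 h1) (inv_mem h2)
      convert this using 1
      simp [kk, ea, eb, eb', ec, gw]
      group

theorem not_echelon_inter : ¬ IsEchelon ((HH ⊓ GG).subgroupOf GG) := by
  rw [inter_eq]
  refine not_echelon hgen fun A B B' C => ?_
  obtain ⟨f, fa, fb, fb', fc, -⟩ := exists_hom A B B' C 1
  exact ⟨f, fa, fb, fb', fc⟩

theorem one_le_rk {G : Type} [Group G] {S : Subgroup G} {g : G} (hg : g ∈ S) (h1 : g ≠ 1) :
    1 ≤ rk S := by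
  refine le_iInf₂ fun T hT => ?_
  rcases T.eq_empty_or_nonempty with rfl | h
  · rw [← hT] at hg
    simp at hg
    exact absurd hg h1
  · exact_mod_cast h.card_pos

theorem two_le_rk {G : Type} [Group G] {S : Subgroup G} {g g' : G} (hg : g ∈ S) (hg' : g' ∈ S)
    (h1 : g * g' ≠ g' * g) : 2 ≤ rk S := by
  refine le_iInf₂ fun T hT => ?_
  by_contra hlt
  have h2 : T.card ≤ 1 := by
    have : T.card < 2 := by exact_mod_cast not_le.1 hlt
    omega
  obtain ⟨t, ht⟩ := Finset.card_le_one_iff_subset_singleton.1 h2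
  have h3 : S ≤ Subgroup.zpowers t := by
    rw [← hT, Subgroup.closure_le]
    intro x hx
    have := Finset.mem_singleton.1 (ht hx)
    rw [this]
    exact Subgroup.mem_zpowers t
  obtain ⟨i, rfl⟩ := h3 hg
  obtain ⟨j, rfl⟩ := h3 hg'
  exact h1 (zpow_mul_comm t i j)

theorem inf_le_of_retract {G : Type} [Group G] (r : G →* G) (s t u : Set G)
    (ht : ∀ x ∈ t, r x = x) (hs : ∀ x ∈ s, r x ∈ Subgroup.closure u) :
    Subgroup.closure s ⊓ Subgroup.closure t ≤ Subgroup.closure u := by
  rintro g ⟨h1, h2⟩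
  have e1 : r g = g := MonoidHom.eqOn_closure (f := r) (g := MonoidHom.id G) ht h2
  have e2 : Subgroup.closure s ≤ (Subgroup.closure u).comap r := (Subgroup.closure_le _).2 hs
  rw [← e1]
  exact e2 h1

theorem echelon_HH : IsEchelon HH := by
  classical
  refine ⟨3, FreeGroupBasis.ofFreeGroup (Fin 3), ?_⟩
  have h0 : gx * gx ∈ HH := Subgroup.subset_closure (by simp)
  have h1 : gw ∈ HH := Subgroup.subset_closure (by simp)
  have hx1 : gx ∈ Subgroup.closure {gx} := Subgroup.subset_closure (by simp)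
  have hx2 : gx ∈ Subgroup.closure {gx, gy} := Subgroup.subset_closure (by simp)
  have hy2 : gy ∈ Subgroup.closure {gx, gy} := Subgroup.subset_closure (by simp)
  have hw2 : gw ∈ Subgroup.closure {gx, gy} :=
    mul_mem (mul_mem (mul_mem hy2 (mul_mem (mul_mem hx2 hy2) (inv_mem hx2))) (inv_mem hy2))
      (mul_mem (mul_mem hx2 hy2) (inv_mem hx2))
  have e1 : HH ⊓ Subgroup.closure {gx} = Subgroup.closure {gx * gx} := by
    apply le_antisymm
    · apply inf_le_of_retract (FreeGroup.lift ![gx, 1, gx⁻¹])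
      · rintro x rfl
        simp [gx]
      · rintro x (rfl | rfl | rfl)
        · apply Subgroup.subset_closure
          simp [gx]
        · simp [gw, gx, gy]
        · simp [gx, gz]
    · rw [Subgroup.closure_le]
      rintro x rfl
      exact ⟨h0, mul_mem hx1 hx1⟩
  have e2 : HH ⊓ Subgroup.closure {gx, gy} = Subgroup.closure {gx * gx, gw} := by
    apply le_antisymm
    · apply inf_le_of_retract (FreeGroup.lift ![gx, gy, gx⁻¹])
      · rintro x (rfl | rfl)
        · simp [gx]
        · simp [gy]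
      · rintro x (rfl | rfl | rfl)
        · apply Subgroup.subset_closure
          simp [gx]
        · apply Subgroup.subset_closure
          simp [gw, gx, gy]
        · simp [gx, gz]
    · rw [Subgroup.closure_le]
      rintro x (rfl | rfl)
      · exact ⟨h0, mul_mem hx2 hx2⟩
      · exact ⟨h1, hw2⟩
  have u1 : rk (HH ⊓ Subgroup.closure {gx}) ≤ 1 := by
    rw [e1]
    simpa using rk_le (S := Subgroup.closure {gx * gx}) {gx * gx} (by simp)
  have l1 : 1 ≤ rk (HH ⊓ Subgroup.closure {gx}) :=
    one_le_rk (g := gx * gx) ⟨h0, mul_mem hx1 hx1⟩ (by decide)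
  have u2 : rk (HH ⊓ Subgroup.closure {gx, gy}) ≤ 2 := by
    rw [e2]
    refine (rk_le (S := Subgroup.closure {gx * gx, gw}) {gx * gx, gw} (by simp)).trans ?_
    exact_mod_cast Finset.card_le_two
  have l2 : 2 ≤ rk (HH ⊓ Subgroup.closure {gx, gy}) :=
    two_le_rk (g := gx * gx) (g' := gw) ⟨h0, mul_mem hx2 hx2⟩ ⟨h1, hw2⟩ (by decide)
  have u3 : rk HH ≤ 3 := by
    refine (rk_le (S := HH) {gx * gx, gw, gz * gx} (by simp [HH])).trans ?_
    exact_mod_cast Finset.card_le_three
  have s1 : ∀ P : Fin 3 → Prop, (∀ l, P l ↔ l = 0) →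
      (FreeGroupBasis.ofFreeGroup (Fin 3)) '' {l | P l} = {gx} := by
    intro P hP
    have : {l | P l} = {0} := Set.ext hP
    rw [this, Set.image_singleton]
    rfl
  have s2 : ∀ P : Fin 3 → Prop, (∀ l, P l ↔ l = 0 ∨ l = 1) →
      (FreeGroupBasis.ofFreeGroup (Fin 3)) '' {l | P l} = {gx, gy} := by
    intro P hP
    have : {l | P l} = {0, 1} := Set.ext hP
    rw [this, Set.image_pair]
    rfl
  intro i
  fin_cases i
  · rw [s1 _ (by decide)]
    exact u1.trans le_add_self
  · rw [s2 _ (by decide), s1 _ (by decide)]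
    refine u2.trans ?_
    calc (2 : ℕ∞) = 1 + 1 := rfl
      _ ≤ _ := by gcongr
  · rw [s2 (fun l => l < _) (by decide)]
    have e3 : {l : Fin 3 | l ≤ 2} = Set.univ := by
      ext l
      revert l
      decide
    have e4 : Subgroup.closure ((FreeGroupBasis.ofFreeGroup (Fin 3)) '' {l | l ≤ (2 : Fin 3)}) =
        ⊤ := by
      rw [e3, Set.image_univ, closure_range_basis]
    change rk (HH ⊓ Subgroup.closure
      ((FreeGroupBasis.ofFreeGroup (Fin 3)) '' {l | l ≤ (2 : Fin 3)})) ≤ _
    rw [e4, inf_top_eq]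
    refine u3.trans ?_
    calc (3 : ℕ∞) = 2 + 1 := rfl
      _ ≤ _ := by gcongr

theorem main : ∃ (n : ℕ) (H G : Subgroup (FreeGroup (Fin n))),
    IsEchelon H ∧ G.FG ∧ ¬ IsEchelon ((H ⊓ G).subgroupOf G) := by
  refine ⟨3, HH, GG, echelon_HH, ?_, not_echelon_inter⟩
  exact (Subgroup.fg_iff _).2 ⟨_, rfl, Set.toFinite _⟩

end Pool.Agent.P.MP_3ccc78_al
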