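import Pool.Agent.P.MP_3ccc78_al.Abstract

set_option autoImplicit false

namespace Pool.Agent.P.MP_3ccc78_al

open Multiplicative

variable {Γ : Type} [Group Γ]

/-- Values of a character on the four generators. -/
def vec (a b b' c : Γ) (ψ : Γ →* M2) : V4 :=
  ![toAdd (ψ a), toAdd (ψ b), toAdd (ψ b'), toAdd (ψ c)]

theorem vec_mul (a b b' c : Γ) (ψ ψ' : Γ →* M2) :
    vec a b b' c (ψ * ψ') = vec a b b' c ψ + vec a b b' c ψ' := by
  funext i
  fin_cases i <;> simp [vec]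

theorem vec_inj {a b b' c : Γ} (hgen : Subgroup.closure {a, b, b', c} = ⊤) {ψ ψ' : Γ →* M2}
    (h : vec a b b' c ψ = vec a b b' c ψ') : ψ = ψ' := by
  apply MonoidHom.eq_of_eqOn_dense hgen
  have h0 := congrFun h 0
  have h1 := congrFun h 1
  have h2 := congrFun h 2
  have h3 := congrFun h 3
  simp only [vec, Matrix.cons_val] at h0 h1 h2 h3
  rintro x (rfl | rfl | rfl | rfl)
  exacts [toAdd.injective h0, toAdd.injective h1, toAdd.injective h2, toAdd.injective h3]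

theorem four_le_rk {a b b' c : Γ}
    (hfree : ∀ A B B' C : Heis, ∃ f : Γ →* Heis, f a = A ∧ f b = B ∧ f b' = B' ∧ f c = C) :
    ((4 : ℕ) : ℕ∞) ≤ rk (KK a b b' c) := by
  have h : ∀ A B B' C : Heis, A.q = 0 → ∃ μ : KK a b b' c →* M2,
      (fun i => toAdd (μ ⟨_, kk_mem a b b' c i⟩)) =
        ![A.r, A.r + A.p * C.q, B.p * B'.q + B'.p * B.q + B'.p * B'.q,
          B'.p * B.q + B.p * B'.q + B.p * B.q] := by
    intro A B B' C hA
    obtain ⟨f, rfl, rfl, rfl, rfl⟩ := hfree A B B' C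
    obtain ⟨μ, hμ⟩ := corner a b b' c f hA
    obtain ⟨e0, e1, e2, e3⟩ := corner_vals a b b' c f hA
    refine ⟨μ, ?_⟩
    funext i
    rw [hμ]
    fin_cases i
    exacts [e0, e1, e2, e3]
  have h2 : ∀ t : V4, ∃ μ : KK a b b' c →* M2,
      (fun i => toAdd (μ ⟨_, kk_mem a b b' c i⟩)) = t := by
    intro t
    obtain ⟨μ, hμ⟩ := h ⟨t 0 + t 1, 0, t 0⟩ ⟨t 3, 1, 0⟩ ⟨0, 0, 0⟩ ⟨0, 1, 0⟩ rfl
    obtain ⟨μ', hμ'⟩ := h ⟨0, 0, 0⟩ ⟨0, 0, 0⟩ ⟨t 2, 1, 0⟩ ⟨0, 0, 0⟩ rfl
    refine ⟨μ * μ', ?_⟩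
    funext i
    have e1 := congrFun hμ i
    have e2 := congrFun hμ' i
    simp only [MonoidHom.mul_apply, toAdd_mul, e1, e2]
    fin_cases i <;> simp
    grind
  choose μ hμ using h2
  exact le_rk μ fun t t' e => by rw [← hμ t, ← hμ t', e]

theorem not_echelon {a b b' c : Γ} (hgen : Subgroup.closure {a, b, b', c} = ⊤)
    (hfree : ∀ A B B' C : Heis, ∃ f : Γ →* Heis, f a = A ∧ f b = B ∧ f b' = B' ∧ f c = C) :
    ¬ IsEchelon (KK a b b' c) := by
  classical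
  rintro ⟨n, X, hX⟩
  have hfreeG : IsFreeGroup Γ := X.isFreeGroup
  set K := KK a b b' c with hK
  let F : ℕ → Subgroup Γ := fun j => Subgroup.closure (X '' {l | (l : ℕ) < j})
  have hstep : ∀ j < n, rk (K ⊓ F (j + 1)) ≤ rk (K ⊓ F j) + 1 := by
    intro j hj
    have := hX ⟨j, hj⟩
    have e1 : {l : Fin n | l ≤ ⟨j, hj⟩} = {l : Fin n | (l : ℕ) < j + 1} := by
      ext l; simp [Fin.le_def]
    rw [e1] at this
    exact this
  have hF0 : rk (K ⊓ F 0) = 0 := by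
    apply le_antisymm _ zero_le
    have := rk_le (S := K ⊓ F 0) ∅ (by simp [F])
    simpa using this
  have hFn : K ⊓ F n = K := by
    have : F n = ⊤ := by
      rw [← closure_range_basis X]
      simp only [F]
      congr 1
      ext x
      simp
    rw [this, inf_top_eq]
  have hup : ∀ j ≤ n, rk (K ⊓ F j) ≤ j := by
    intro j
    induction j with
    | zero => intro _; rw [hF0]; exact zero_le
    | succ j ih =>
      intro hj
      refine (hstep j hj).trans ?_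
      push_cast
      gcongr
      exact ih (by omega)
  have h4 := four_le_rk hfree
  rw [← hK] at h4
  let ψ : (Fin n → ZMod 2) → (Γ →* M2) := fun t => X.lift fun l => ofAdd (t l)
  have hψ : ∀ t l, ψ t (X l) = ofAdd (t l) := fun t l => lift_basis X _ l
  have hψinj : Function.Injective fun t => vec a b b' c (ψ t) := by
    intro t t' h
    funext l
    have := vec_inj hgen h
    apply ofAdd.injective
    rw [← hψ, ← hψ, this]
  have hψadd : ∀ t t', vec a b b' c (ψ (t + t')) = vec a b b' c (ψ t) + vec a b b' c (ψ t') := by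
    intro t t'
    rw [← vec_mul]
    congr 1
    apply X.ext_hom
    intro l
    simp [hψ]
  have hψ0 : vec a b b' c (ψ 0) = 0 := by
    have := hψadd 0 0
    rw [add_zero, v4_add_self] at this
    exact this
  have hn : n = 4 := by
    apply le_antisymm
    · have hc := Fintype.card_le_of_injective _ hψinj
      simp only [Fintype.card_fun, ZMod.card, Fintype.card_fin] at hc
      exact (Nat.pow_le_pow_iff_right (by norm_num : 1 < 2)).1 hc
    · have := h4.trans (hFn ▸ hup n le_rfl)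
      exact_mod_cast this
  subst hn
  have cancel : ∀ (m : ℕ) (r : ℕ∞), ((m + 1 : ℕ) : ℕ∞) ≤ r + 1 → (m : ℕ∞) ≤ r := by
    intro m r h
    push_cast at h
    exact (WithTop.add_le_add_iff_right WithTop.one_ne_top).1 h
  have r3 : ((3 : ℕ) : ℕ∞) ≤ rk (K ⊓ F 3) := by
    have h5 := hstep 3 (by norm_num)
    have e : K ⊓ F (3 + 1) = K := hFn
    rw [e] at h5
    exact cancel 3 _ (h4.trans h5)
  have r2 : ((2 : ℕ) : ℕ∞) ≤ rk (K ⊓ F 2) := cancel 2 _ (r3.trans (hstep 2 (by norm_num)))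
  have r1 : ((1 : ℕ) : ℕ∞) ≤ rk (K ⊓ F 1) := cancel 1 _ (r2.trans (hstep 1 (by norm_num)))
  have hFmono : ∀ i j, i ≤ j → F i ≤ F j := fun i j h =>
    Subgroup.closure_mono (Set.image_mono fun l (hl : (l : ℕ) < i) => lt_of_lt_of_le hl h)
  let P : ℕ → V4 → Prop := fun j v => ∃ g : K, (g : Γ) ∈ F j ∧ Rep a b b' c g v
  let Q : ℕ → V4 → Prop := fun j u =>
    ∃ χ : Γ →* M2, (∀ l : Fin 4, (l : ℕ) < j → χ (X l) = 1) ∧ vec a b b' c χ = u
  have hvan : ∀ j (χ : Γ →* M2), (∀ l : Fin 4, (l : ℕ) < j → χ (X l) = 1) →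
      ∀ g ∈ F j, χ g = 1 := by
    intro j χ h g hg
    have : F j ≤ χ.ker := by
      apply (Subgroup.closure_le _).2
      rintro _ ⟨l, hl, rfl⟩
      exact h l hl
    exact this hg
  have hPind : ∀ m : ℕ, (m : ℕ∞) ≤ rk (K ⊓ F m) → ∃ (s : Fin m → V4) (ℓ : Fin m → V4 → ZMod 2),
      (∀ i, P m (s i)) ∧ (∀ i x y, ℓ i (x + y) = ℓ i x + ℓ i y) ∧ (∀ i, ℓ i 0 = 0) ∧
      ∀ i j, ℓ i (s j) = if i = j then 1 else 0 := by
    intro m hm
    obtain ⟨y, μ, hμ⟩ := dual_of_le_rk hm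
    choose ν hν using fun i => extend_hom X {l | (l : ℕ) < m} K (μ i)
    choose s hs using fun j => exists_rep a b b' c ⟨(y j : Γ), (y j).2.1⟩
    refine ⟨s, fun i v => ∑ k, v k * toAdd (ν i ⟨_, kk_mem a b b' c k⟩),
      fun j => ⟨_, (y j).2.2, hs j⟩, ?_, by simp, ?_⟩
    · intro i x y
      simp [add_mul, Finset.sum_add_distrib]
    · intro i j
      have := hs j (ν i)
      rw [hν i _ (y j).2] at this
      simp only
      rw [← this]
      exact congrArg toAdd (hμ i j)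
  refine final P Q ?_ ?_ ?_ ?_ ?_ ?_ ?_ ?_ ?_ ?_ ?_ ?_
  · rintro j x y ⟨g, hg, hx⟩ ⟨g', hg', hy⟩
    exact ⟨g * g', mul_mem hg hg', hx.mul hy⟩
  · rintro j x y ⟨χ, h1, rfl⟩ ⟨χ', h2, rfl⟩
    exact ⟨χ * χ', fun l hl => by simp [h1 l hl, h2 l hl], vec_mul _ _ _ _ _ _⟩
  · rintro x ⟨g, hg, hx⟩
    exact ⟨g, hFmono 1 2 (by norm_num) hg, hx⟩
  · rintro x ⟨g, hg, hx⟩
    exact ⟨g, hFmono 2 3 (by norm_num) hg, hx⟩
  · rintro x ⟨χ, h1, rfl⟩
    exact ⟨χ, fun l hl => h1 l (by omega), rfl⟩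
  · rintro x ⟨χ, h1, rfl⟩
    exact ⟨χ, fun l hl => h1 l (by omega), rfl⟩
  · rintro j v u ⟨g, hg, hv⟩ ⟨χ, h1, rfl⟩
    have h2 := hv (χ.comp K.subtype)
    have h3 : χ g = 1 := hvan j χ h1 g hg
    simp only [MonoidHom.comp_apply, Subgroup.subtype_apply, h3, toAdd_one, Fin.sum_univ_four, kk,
      Matrix.cons_val, map_mul, map_inv, toAdd_mul, toAdd_inv] at h2
    simp only [vec, Matrix.cons_val]
    grind
  · rintro j v u ⟨g, hg, hv⟩ ⟨χ, h1, rfl⟩ e0 e1
    have key : ∀ f : V4, v 1 * (f 0 * toAdd (χ c)) +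
        v 2 * (f 1 * toAdd (χ b') + f 2 * toAdd (χ b) + f 2 * toAdd (χ b')) +
        v 3 * (f 2 * toAdd (χ b) + f 1 * toAdd (χ b') + f 1 * toAdd (χ b)) = 0 := by
      intro f
      obtain ⟨φ₀, fa, fb, fb', -⟩ := hfree ⟨f 0, 0, 0⟩ ⟨f 1, 0, 0⟩ ⟨f 2, 0, 0⟩ ⟨0, 0, 0⟩
      let θ : Γ →* Heis := X.lift fun l => ⟨(φ₀ (X l)).p, toAdd (χ (X l)), 0⟩
      have hθ : ∀ l, θ (X l) = ⟨(φ₀ (X l)).p, toAdd (χ (X l)), 0⟩ := fun l => lift_basis X _ l
      have hp : ∀ x, (θ x).p = (φ₀ x).p := by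
        intro x
        have : Heis.hp.comp θ = Heis.hp.comp φ₀ := X.ext_hom _ _ fun l => by
          simp [Heis.hp, hθ]
        exact ofAdd.injective (DFunLike.congr_fun this x)
      have hq : ∀ x, (θ x).q = toAdd (χ x) := by
        intro x
        have : Heis.hq.comp θ = χ := X.ext_hom _ _ fun l => by
          simp [Heis.hq, hθ]
        rw [← this]
        rfl
      have ha : (θ a).q = 0 := by rw [hq]; exact e1
      have hr : ∀ x ∈ F j, (θ x).r = 0 := by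
        intro x hx
        induction hx using Subgroup.closure_induction with
        | mem x hx =>
          obtain ⟨l, -, rfl⟩ := hx
          rw [hθ]
        | one => simp
        | mul x y hx hy ihx ihy => simp [ihx, ihy, hq, hvan j χ h1 y hy]
        | inv x hx ihx => simp [ihx, hq, hvan j χ h1 x hx]
      obtain ⟨μ, hμ⟩ := corner a b b' c θ ha
      obtain ⟨c0, c1, c2, c3⟩ := corner_vals a b b' c θ ha
      have h2 := hv μ
      simp only [hμ, Fin.sum_univ_four, c0, c1, c2, c3, hr g hg, hp, hq, fa, fb, fb'] at h2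
      grind
    have k0 := key ![1, 0, 0, 0]
    have k1 := key ![0, 1, 0, 0]
    have k2 := key ![0, 0, 1, 0]
    simp only [Matrix.cons_val] at k0 k1 k2
    simp only [vec, Matrix.cons_val]
    refine ⟨?_, ?_, ?_⟩ <;> grind
  · obtain ⟨s, ℓ, h1, h2, h3, h4⟩ := hPind 1 r1
    refine ⟨s 0, h1 0, fun h => ?_⟩
    have := h4 0 0
    rw [h, h3] at this
    simp at this
  · obtain ⟨s, ℓ, h1, h2, h3, h4⟩ := hPind 2 r2
    have ne : ∀ (i : Fin 2) (x : V4), ℓ i x = 1 → x ≠ 0 := by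
      intro i x hx h
      rw [h, h3] at hx
      exact absurd hx (by decide)
    exact ⟨s 0, s 1, h1 0, h1 1, ne 0 _ (by simp [h4]), ne 1 _ (by simp [h4]),
      ne 0 _ (by simp [h2, h4])⟩
  · obtain ⟨s, ℓ, h1, h2, h3, h4⟩ := hPind 3 r3
    have ne : ∀ (i : Fin 3) (x : V4), ℓ i x = 1 → x ≠ 0 := by
      intro i x hx h
      rw [h, h3] at hx
      exact absurd hx (by decide)
    exact ⟨s 0, s 1, s 2, h1 0, h1 1, h1 2, ne 0 _ (by simp [h4]), ne 1 _ (by simp [h4]),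
      ne 2 _ (by simp [h4]), ne 0 _ (by simp [h2, h4]), ne 0 _ (by simp [h2, h4]),
      ne 1 _ (by simp [h2, h4]), ne 0 _ (by simp [h2, h4])⟩
  · have ne : ∀ t, t ≠ 0 → vec a b b' c (ψ t) ≠ 0 := fun t ht h =>
      ht (hψinj (h.trans hψ0.symm))
    refine ⟨vec a b b' c (ψ ![0, 1, 0, 0]), vec a b b' c (ψ ![0, 0, 1, 0]),
      vec a b b' c (ψ ![0, 0, 0, 1]), ⟨_, ?_, rfl⟩, ⟨_, ?_, rfl⟩, ⟨_, ?_, rfl⟩,
      ne _ (by decide), ne _ (by decide), ne _ (by decide), ?_, ?_, ?_, ?_⟩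
    · intro l hl; rw [hψ]; revert l; decide
    · intro l hl; rw [hψ]; revert l; decide
    · intro l hl; rw [hψ]; revert l; decide
    · rw [← hψadd]; exact ne _ (by decide)
    · rw [← hψadd]; exact ne _ (by decide)
    · rw [← hψadd]; exact ne _ (by decide)
    · rw [← hψadd, ← hψadd]; exact ne _ (by decide)

end Pool.Agent.P.MP_3ccc78_al
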