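import Pool.Agent.P.MP_3ccc78_al.Defs

set_option autoImplicit false

namespace Pool.Agent.P.MP_3ccc78_al

open Multiplicative

/-- The group of order two, written multiplicatively. -/
abbrev M2 : Type := Multiplicative (ZMod 2)

variable {G : Type} [Group G]

theorem rk_le {S : Subgroup G} (T : Finset G) (h : Subgroup.closure (T : Set G) = S) :
    rk S ≤ T.card :=
  iInf₂_le T h

theorem closure_range_basis {ι : Type} (X : FreeGroupBasis ι G) :
    Subgroup.closure (Set.range X) = ⊤ := by
  have h1 : Set.range X = X.repr.symm.toMonoidHom '' Set.range FreeGroup.of := by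
    rw [← Set.range_comp]
    rfl
  rw [h1, ← MonoidHom.map_closure, FreeGroup.closure_range_of, ← MonoidHom.range_eq_map,
    MonoidHom.range_eq_top]
  exact X.repr.symm.surjective

theorem lift_basis {ι H : Type} [Group H] (X : FreeGroupBasis ι G) (f : ι → H) (i : ι) :
    X.lift f (X i) = f i := by
  have := X.lift.symm_apply_apply f
  exact congrFun this i

/-- Independent characters force many generators. -/
theorem le_rk {S : Subgroup G} {m : ℕ} (μ : (Fin m → ZMod 2) → (S →* M2))
    (hμ : Function.Injective μ) : (m : ℕ∞) ≤ rk S := by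
  classical
  refine le_iInf₂ fun T hT => ?_
  have hmem : ∀ x : T, (x : G) ∈ S := fun x => hT ▸ Subgroup.subset_closure x.2
  have hinj : Function.Injective
      (fun t : Fin m → ZMod 2 => fun x : T => μ t ⟨x, hmem x⟩) := by
    intro t t' h
    apply hμ
    refine MonoidHom.ext ?_
    rintro ⟨g, hg⟩
    subst hT
    induction hg using Subgroup.closure_induction with
    | mem x hx => exact congrFun h ⟨x, hx⟩
    | one => exact (map_one (μ t)).trans (map_one (μ t')).symm
    | mul x y hx hy ihx ihy =>
      have : (⟨x * y, mul_mem hx hy⟩ : Subgroup.closure (T : Set G)) = ⟨x, hx⟩ * ⟨y, hy⟩ := rfl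
      rw [this, map_mul, map_mul, ihx, ihy]
    | inv x hx ihx =>
      have : (⟨x⁻¹, inv_mem hx⟩ : Subgroup.closure (T : Set G)) = ⟨x, hx⟩⁻¹ := rfl
      rw [this, map_inv, map_inv, ihx]
  have hc := Fintype.card_le_of_injective _ hinj
  simp only [Fintype.card_fun, ZMod.card, Fintype.card_fin, Fintype.card_multiplicative,
    Fintype.card_coe] at hc
  have := (Nat.pow_le_pow_iff_right (by norm_num : 1 < 2)).1 hc
  exact_mod_cast this

/-- In a free group a subgroup of rank at least `m` has `m` elements with dual characters. -/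
theorem dual_of_le_rk [IsFreeGroup G] {S : Subgroup G} {m : ℕ} (h : (m : ℕ∞) ≤ rk S) :
    ∃ (y : Fin m → S) (μ : Fin m → (S →* M2)),
      ∀ i j, μ i (y j) = ofAdd (if i = j then 1 else 0) := by
  classical
  let B := IsFreeGroup.basis S
  have hemb : Nonempty (Fin m ↪ IsFreeGroup.Generators S) := by
    by_cases hfin : Finite (IsFreeGroup.Generators S)
    · have := Fintype.ofFinite (IsFreeGroup.Generators S)
      apply Function.Embedding.nonempty_of_card_le
      rw [Fintype.card_fin]
      have h1 : Subgroup.closure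
          ((Finset.univ.image fun i => ((B i : S) : G) : Finset G) : Set G) = S := by
        have h2 : ((Finset.univ.image fun i => ((B i : S) : G) : Finset G) : Set G) =
            S.subtype '' Set.range B := by
          ext x; simp
        rw [h2, ← MonoidHom.map_closure, closure_range_basis, ← MonoidHom.range_eq_map,
          Subgroup.range_subtype]
      have h3 := h.trans (rk_le _ h1)
      have h4 : m ≤ (Finset.univ.image fun i => ((B i : S) : G)).card := by exact_mod_cast h3
      exact h4.trans (Finset.card_image_le.trans (by simp))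
    · have : Infinite (IsFreeGroup.Generators S) := not_finite_iff_infinite.1 hfin
      exact ⟨Fin.valEmbedding.trans (Infinite.natEmbedding _)⟩
  obtain ⟨e⟩ := hemb
  refine ⟨fun j => B (e j), fun i => B.lift fun l => ofAdd (if e i = l then 1 else 0), ?_⟩
  intro i j
  rw [lift_basis]
  simp [e.injective.eq_iff]

/-- A character of the intersection of `K` with a free factor extends to `K`. -/
theorem extend_hom {ι M : Type} [Group M] (X : FreeGroupBasis ι G) (J : Set ι) (K : Subgroup G)
    (μ : (K ⊓ Subgroup.closure (X '' J) : Subgroup G) →* M) :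
    ∃ ν : K →* M, ∀ (g : G) (hg : g ∈ K ⊓ Subgroup.closure (X '' J)),
      ν ⟨g, hg.1⟩ = μ ⟨g, hg⟩ := by
  classical
  let A := Subgroup.closure (X '' J)
  let o : G ⧸ K := QuotientGroup.mk 1
  have hstab : ∀ g : G, g • o = o ↔ g ∈ K := by
    intro g
    change (QuotientGroup.mk (g * 1) : G ⧸ K) = QuotientGroup.mk 1 ↔ _
    rw [QuotientGroup.eq]
    simp
  have ht : ∀ s : G ⧸ K, ∃ t : A, ((∃ a : A, (a : G) • o = s) → (t : G) • o = s) ∧
      (s = o → t = 1) := by
    intro s
    by_cases h1 : s = o
    · exact ⟨1, fun _ => by simp [h1], fun _ => rfl⟩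
    · by_cases h2 : ∃ a : A, (a : G) • o = s
      · obtain ⟨a, ha⟩ := h2
        exact ⟨a, fun _ => ha, fun h => absurd h h1⟩
      · exact ⟨1, fun h => absurd h h2, fun h => absurd h h1⟩
  choose t ht1 ht2 using ht
  have horb : ∀ (a : A) (s : G ⧸ K),
      (∃ b : A, (b : G) • o = (a : G) • s) ↔ ∃ b : A, (b : G) • o = s := by
    intro a s
    constructor
    · rintro ⟨b, hb⟩
      exact ⟨a⁻¹ * b, by simp [mul_smul, hb]⟩
    · rintro ⟨b, hb⟩
      exact ⟨a * b, by simp [mul_smul, hb]⟩
  have hmem : ∀ (a : A) (s : G ⧸ K), (∃ b : A, (b : G) • o = s) →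
      (((t ((a : G) • s))⁻¹ * a * t s : A) : G) ∈ K ⊓ A := by
    intro a s hs
    refine ⟨(hstab _).1 ?_, SetLike.coe_mem _⟩
    have h1 := ht1 s hs
    have h2 := ht1 ((a : G) • s) ((horb a s).2 hs)
    simp only [Subgroup.coe_mul, Subgroup.coe_inv, mul_smul, h1]
    rw [inv_smul_eq_iff, h2]
  let c : A → G ⧸ K → M := fun a s =>
    if h : ∃ b : A, (b : G) • o = s then μ ⟨_, hmem a s h⟩ else 1
  let act : MulAction A ((G ⧸ K) × M) :=
    { smul := fun a p => ((a : G) • p.1, c a p.1 * p.2)
      one_smul := by
        rintro ⟨s, m⟩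
        change (((1 : A) : G) • s, c 1 s * m) = (s, m)
        have : c 1 s = 1 := by
          simp only [c]
          split_ifs with h
          · rw [← map_one μ]
            congr 1
            ext
            simp
          · rfl
        simp [this]
      mul_smul := by
        rintro a b ⟨s, m⟩
        change (((a * b : A) : G) • s, c (a * b) s * m) =
          ((a : G) • (b : G) • s, c a ((b : G) • s) * (c b s * m))
        have : c (a * b) s = c a ((b : G) • s) * c b s := by
          simp only [c]
          by_cases h : ∃ b : A, (b : G) • o = s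
          · rw [dif_pos h, dif_pos h, dif_pos ((horb b s).2 h), ← map_mul]
            congr 1
            ext
            simp [mul_smul, mul_assoc]
          · rw [dif_neg h, dif_neg h, dif_neg (fun h' => h ((horb b s).1 h')), one_mul]
        rw [this]
        simp [mul_smul, mul_assoc] }
  let σA : A →* Equiv.Perm ((G ⧸ K) × M) := @MulAction.toPermHom A _ _ act
  have hσA : ∀ (a : A) s m, σA a (s, m) = ((a : G) • s, c a s * m) := fun _ _ _ => rfl
  let ρ : G →* Equiv.Perm ((G ⧸ K) × M) := X.lift fun l =>
    if h : l ∈ J then σA ⟨X l, Subgroup.subset_closure ⟨l, h, rfl⟩⟩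
    else Equiv.prodCongr (MulAction.toPerm (X l)) (Equiv.refl M)
  have hρ1 : ∀ g : G, ∀ s, ∃ d : M, ∀ m, ρ g (s, m) = (g • s, d * m) := by
    intro g
    have hg : g ∈ Subgroup.closure (Set.range X) := by
      rw [closure_range_basis]; trivial
    induction hg using Subgroup.closure_induction with
    | mem x hx =>
      obtain ⟨l, rfl⟩ := hx
      intro s
      simp only [ρ, lift_basis]
      split_ifs with h
      · exact ⟨_, fun m => hσA _ s m⟩
      · exact ⟨1, fun m => by simp⟩
    | one => exact fun s => ⟨1, fun m => by simp⟩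
    | mul x y _ _ ihx ihy =>
      intro s
      obtain ⟨d, hd⟩ := ihy s
      obtain ⟨d', hd'⟩ := ihx (y • s)
      exact ⟨d' * d, fun m => by rw [map_mul, Equiv.Perm.mul_apply, hd, hd', mul_smul, mul_assoc]⟩
    | inv x _ ihx =>
      intro s
      obtain ⟨d, hd⟩ := ihx (x⁻¹ • s)
      refine ⟨d⁻¹, fun m => ?_⟩
      rw [map_inv, Equiv.Perm.inv_eq_iff_eq, hd]
      simp
  have hρ2 : ∀ (g : G) (hg : g ∈ A), ρ g = σA ⟨g, hg⟩ := by
    intro g hg
    induction hg using Subgroup.closure_induction with
    | mem x hx =>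
      obtain ⟨l, hl, rfl⟩ := hx
      simp only [ρ, lift_basis, dif_pos hl]
    | one => exact (map_one ρ).trans (map_one σA).symm
    | mul x y hx hy ihx ihy => rw [map_mul, ihx, ihy, ← map_mul]; rfl
    | inv x hx ihx => rw [map_inv, ihx, ← map_inv]; rfl
  refine ⟨MonoidHom.mk' (fun k : K => (ρ k (o, 1)).2) ?_, ?_⟩
  · intro k k'
    obtain ⟨d, hd⟩ := hρ1 k o
    obtain ⟨d', hd'⟩ := hρ1 k' o
    simp only [Subgroup.coe_mul, map_mul, Equiv.Perm.mul_apply, hd', (hstab _).2 k'.2, hd, mul_one]
  · intro g hg
    have h1 : ∃ b : A, (b : G) • o = o := ⟨1, by simp⟩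
    simp only [MonoidHom.mk'_apply, hρ2 g hg.2, hσA, mul_one, c, dif_pos h1]
    congr 1
    apply Subtype.ext
    have h2 : g • o = o := (hstab _).2 hg.1
    show (((t (g • o))⁻¹ * ⟨g, hg.2⟩ * t o : A) : G) = g
    rw [h2, ht2 o rfl]
    simp

end Pool.Agent.P.MP_3ccc78_al
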